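import Pool.Agent.H13.IU.A3

/-!
# Fact `A3`: `49/50 <= θ <= 21/20`, `θ < b`, `b - θ <= 5/2 (θ - 24/25)`, `K = 1 + (b - θ)/(4 θ)`

`b = θ (1 + x)`, `0 < x <= 3/14`, `K = 1 + x/4`. Numerically `A0/(c x)^2 >= 3.27`,
`D0 >= 1.65 (s x)^2`, `ω/x >= 3.9`, `G - ω >= 1.28` (`cw = c ω`), relative margins of `m0`, `m1`:
`.446`, `.328` (worst `(1.05, .214)`).
Exactness: `A0 = D0 = cw = 0`, `dA0/dx = dD0/dx = 0` at `x = 0`.
Proof: interval arithmetic in the kernel (`Pool/Agent/H13/IU/A3.lean`).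
-/

namespace Pool.Agent.H12.PR

open Real

theorem fact_A3 {θ b : ℝ} (h0 : 49 / 50 ≤ θ) (h1 : θ ≤ 21 / 20) (h2 : θ < b)
    (h3 : b - θ ≤ 5 / 2 * (θ - 24 / 25)) : Sp θ b (1 + (b - θ) / (4 * θ)) := by
  exact Pool.Agent.H13.IU.factA3 h0 h1 h2 h3

end Pool.Agent.H12.PR
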