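import Pool.Agent.H13.IU.B1

/-!
# Fact `B1`: `21/20 <= θ <= 5/4`, `θ < b < π/2`, `K = 1 + (b - θ)/(2 θ)`

`b = θ (1 + x)`, `0 < x < 1/2`, `K = 1 + x/2`. Numerically `S0 >= .30 x^2` (worst `(1.05, .496)`,
`.36` at `x = 0`), `D0 >= .44 x^2`; `S1 = S0 + (16/25) cot^2 θ D0`.
Exactness: `S0 = D0 = 0` and `dS0/dx = dD0/dx = 0` at `x = 0`.
Proof: interval arithmetic in the kernel (`Pool/Agent/H13/IU/B1.lean`).
-/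

namespace Pool.Agent.H12.PR

open Real

theorem fact_B1 {θ b : ℝ} (h0 : 21 / 20 ≤ θ) (h1 : θ ≤ 5 / 4) (h2 : θ < b) (h3 : b < π / 2) :
    0 ≤ S0 θ b (1 + (b - θ) / (2 * θ)) ∧ 0 ≤ S1 θ b (1 + (b - θ) / (2 * θ)) := by
  exact Pool.Agent.H13.IU.factB1 h0 h1 h2 h3

end Pool.Agent.H12.PR
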