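import Pool.Agent.H13.IU.B2

/-!
# Fact `B2`: `5/4 <= θ < π/2`, `θ < b < π/2`, `K = θ / (2 θ - b)`

`y = (b - θ)/(2 θ - b)`, `0 < y <= 7/20`, `K = 1 + y`, `B = K b = θ (1 + 2 y)`,
`b = θ (1 + 2 y)/(1 + y)`, `β = K (2 θ - b) = θ` exactly, so `S0`, `D0` are analytic up to
`θ = π/2`. Numerically `S0 >= 1.4 x^2`, `D0 >= - 3.3 x^2`, `x = (b - θ)/θ = y/(1+y)`
(`S1 = S0 + (16/25) cot^2 θ D0 >= 1.4 x^2`). Proof: interval arithmetic in the kernel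
(`Pool/Agent/H13/IU/B2.lean`).
-/

namespace Pool.Agent.H12.PR

open Real

theorem fact_B2 {θ b : ℝ} (h0 : 5 / 4 ≤ θ) (h1 : θ < π / 2) (h2 : θ < b) (h3 : b < π / 2) :
    0 ≤ S0 θ b (θ / (2 * θ - b)) ∧ 0 ≤ S1 θ b (θ / (2 * θ - b)) :=
  Pool.Agent.H13.IU.factB2 h0 h1 h2 h3

end Pool.Agent.H12.PR
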