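import Pool.Agent.H97.SU.Pf
import Pool.Agent.H93.PR2.G1
import Pool.Agent.H46.KO.Prk
import Pool.Agent.H46.KO.Fx
import Pool.Agent.H12.PR.B1
import Pool.Agent.H12.PR.B2
import Pool.Agent.H12.PR.A3

/-!
# The pair inequality for every `θ`, and the dynamic theorem

Regions (`x = (b - θ)/θ`):
* `θ <= 49/50`, or `θ <= 21/20` and `5/2 (θ - 24/25) <= b - θ`: `K = 1` (`H46/KO`);
* `49/50 <= θ <= 21/20`, `b - θ <= 5/2 (θ - 24/25)`: `fact_A3`, `Pr_of_Sp`;
* `21/20 <= θ <= 5/4`: `fact_B1`, `Pr_of_S`;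
* `5/4 <= θ`: `fact_B2`, `Pr_of_S`.
For `θ > 49/50` the lobes are shorter than `π/2` (as `t <= 3/5`).
-/

open Complex MeasureTheory Set Filter Topology
open scoped ComplexConjugate Real

namespace Pool.Agent.H12.PR

open Pool.Agent.H36.SZ Pool.Agent.H15.PM Pool.Agent.H97.SU Pool.Agent.H93.PR2

theorem pr_K1 {t θ b : ℝ} (ht : 0 < t) (h0 : 0 < θ) (h1 : θ < π / 2)
    (hT : Real.tanh t * Real.tan θ ≤ 1) (hb : θ < b) (hb2 : b < 2 * θ)
    (hF : Pool.Agent.H46.KO.Facts θ (b - θ)) (h : ℝ) : Pr t θ b h :=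
  Pool.Agent.H46.KO.pr_one ht h0 h1 hT hb hb2.le (fun e => absurd e hb2.ne) (fun _ => hF)
    (fun e => absurd e hb2.ne)

/-- `θ > 49/50` and `tanh t tan θ < 4/5` imply `t <= 3/5` -/
theorem t_le {t θ : ℝ} (h0 : 49 / 50 < θ) (h1 : θ < π / 2)
    (hT : Real.tanh t * Real.tan θ < 4 / 5) : t ≤ 3 / 5 := by
  by_contra ht
  have ht := not_le.1 ht
  have hpi := Real.pi_gt_three
  -- `tan θ`
  have a1 := Pool.Agent.H46.KO.sin_98
  have a2 := Pool.Agent.H46.KO.cos_98
  have hc : 0 < Real.cos (49 / 50) := by linarith [a2.1]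
  have h2 : 149 / 100 < Real.tan (49 / 50) := by
    rw [Real.tan_eq_sin_div_cos, lt_div_iff₀ hc]
    linarith [a1.1, a2.2]
  have h3 : Real.tan (49 / 50) < Real.tan θ :=
    Real.tan_lt_tan_of_lt_of_lt_pi_div_two (by linarith) h1 h0
  -- `tanh t`
  have e0 : 0 < Real.exp t := Real.exp_pos _
  have e2 : Real.exp (6 / 5) < Real.exp t ^ 2 := by
    rw [← Real.exp_nat_mul, Real.exp_lt_exp]
    push_cast
    linarith
  have e3 : 332 / 100 < Real.exp (6 / 5) := by
    have h := Real.sum_le_exp_of_nonneg (x := 6 / 5) (by norm_num) 9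
    norm_num [Finset.sum_range_succ, Nat.factorial] at h
    linarith
  have e4 : 537 / 1000 < Real.tanh t := by
    rw [Real.tanh_eq_sinh_div_cosh, lt_div_iff₀ (Real.cosh_pos _), Real.sinh_eq, Real.cosh_eq,
      Real.exp_neg]
    have e7 : 1537 / 1000 * (Real.exp t)⁻¹ < 463 / 1000 * Real.exp t := by
      rw [← div_eq_mul_inv, div_lt_iff₀ e0]
      nlinarith
    linarith
  nlinarith

theorem dyn {t θ : ℝ} (ht : 0 < t) (h0 : 0 < θ) (h1 : θ < π / 2)
    (hT : Real.tanh t * Real.tan θ < 4 / 5) {L : List Lb} (hL : Cl t θ L)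
    (hs : t ≤ 3 / 5 → ∀ l ∈ L, l.b < π / 2) : False := by
  have hpi := Real.pi_gt_three
  have hpi' := Real.pi_lt_d2
  refine no_cl' ht h0 h1 (by linarith) hL fun l hl hb hb2 hb3 => ?_
  rcases le_or_gt θ (49 / 50) with h2 | h2
  · exact Pool.Agent.H46.KO.pr_low ht h0 h2 (by linarith) hb hb2 hb3
  have h3 := hs (t_le h2 h1 hT) l hl
  have hb2' : l.b < 2 * θ := by linarith
  rcases le_or_gt θ (21 / 20) with h4 | h4
  · rcases le_or_gt (5 / 2 * (θ - 24 / 25)) (l.b - θ) with h5 | h5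
    · exact pr_K1 ht h0 h1 (by linarith) hb hb2' (Pool.Agent.H46.KO.facts_x ⟨h2.le, h4, h5, by linarith⟩) l.h
    · have hx : 0 < (l.b - θ) / (4 * θ) := by
        have : 0 < l.b - θ := by linarith
        positivity
      have hx2 : (l.b - θ) / (4 * θ) ≤ 1 / 16 := by
        rw [div_le_iff₀ (by positivity)]
        linarith
      refine Pr_of_Sp ht (by linarith) h1 hT.le hb hb2' (by linarith) ?_ ?_
        (fact_A3 h2.le h4 hb h5.le) l.h
      · nlinarith
      · nlinarith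
  rcases le_or_gt θ (5 / 4) with h6 | h6
  · obtain ⟨f1, f2⟩ := fact_B1 h4.le h6 hb h3
    have hx : 0 < (l.b - θ) / (2 * θ) := by
      have : 0 < l.b - θ := by linarith
      positivity
    have hx2 : (l.b - θ) / (2 * θ) ≤ 1 / 4 := by
      rw [div_le_iff₀ (by positivity)]
      linarith
    refine Pr_of_S ht (by linarith) h1 hT.le hb hb2' (by linarith) ?_ ?_ f1 f2 l.h
    · nlinarith
    · have e : (1 + (l.b - θ) / (2 * θ)) * (2 * θ - l.b) =
          θ - (l.b - θ) / 2 - (l.b - θ) ^ 2 / (2 * θ) := by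
        field_simp
        ring
      rw [e]
      have : 0 ≤ (l.b - θ) ^ 2 / (2 * θ) := by positivity
      linarith
  · obtain ⟨f1, f2⟩ := fact_B2 h6.le h1 hb h3
    have hq : 0 < 2 * θ - l.b := by linarith
    refine Pr_of_S ht (by linarith) h1 hT.le hb hb2' ?_ ?_ ?_ f1 f2 l.h
    · rw [le_div_iff₀ hq]
      linarith
    · rw [div_mul_eq_mul_div, div_lt_iff₀ hq]
      nlinarith
    · rw [div_mul_cancel₀ _ hq.ne']
      exact h1

end Pool.Agent.H12.PR
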