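import Mathlib

/-!
# Scalar functions of the pair inequality

`θ, b, K` real, `B = K b`, `β = K (2 θ - b)`. In the units `C^2 c^2` the pair functional is
`f = a + d σ^2 - 2 ω v + L v^2 + 2 G (1 - σ^2) sin^2 η`, `σ = T tan θ`, `v = 1 - cos η + σ sin η`;
`A0 = c^2 a`, `D0 = s^2 d`, `cw = c ω`, `Gf = G`, `Lf = L`, and `S0 = A0 - cw^2 / L`.
-/

namespace Pool.Agent.H12.PR

open Real

noncomputable section

/-- `N = sin B - B cos B` -/
def Nf (B : ℝ) : ℝ := sin B - B * cos B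

/-- `G = 2 K / sin 2β = K / (sin β cos β)` -/
def Gf (K β : ℝ) : ℝ := K / (sin β * cos β)

/-- `L = G + K (B - sin B cos B) / (N sin B)` -/
def Lf (K B β : ℝ) : ℝ := K / (sin β * cos β) + K * (B - sin B * cos B) / (Nf B * sin B)

/-- `c ω = c L - K^2 sin B sin b / N` -/
def cw (θ b K : ℝ) : ℝ :=
  cos θ * Lf K (K * b) (K * (2 * θ - b)) - K ^ 2 * sin (K * b) * sin b / Nf (K * b)

/-- `c^2 a` -/
def A0 (θ b K : ℝ) : ℝ :=
  K ^ 2 * (θ + sin θ * cos θ) - (θ - sin θ * cos θ) -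
    K * cos θ ^ 2 * (sin (K * (2 * θ - b)) / cos (K * (2 * θ - b))) +
    K / Nf (K * b) * (K * b * sin (K * b) * cos θ ^ 2 - 2 * K * sin (K * b) * cos θ * sin b +
      K ^ 2 * cos (K * b) * sin b ^ 2)

/-- `s^2 d` -/
def D0 (θ b K : ℝ) : ℝ :=
  K ^ 2 * (θ - sin θ * cos θ) - (θ + sin θ * cos θ) +
    K * sin θ ^ 2 * (cos (K * b) / sin (K * b) +
      cos (K * (2 * θ - b)) / sin (K * (2 * θ - b)))

/-- the quotient `R` -/
def Rf (B β : ℝ) : ℝ :=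
  (sin β * cos β - sin B * cos B) /
    (Nf B * sin B + sin β * cos β * (B - sin B * cos B))

/-- `S0 = A0 - cw^2 / L` in closed form -/
def S0 (θ b K : ℝ) : ℝ :=
  K ^ 2 * (θ + sin θ * cos θ) - (θ - sin θ * cos θ) +
    K * cos θ ^ 2 * (cos (K * b) / sin (K * b) -
      2 * (sin (K * (2 * θ - b)) / cos (K * (2 * θ - b))) -
      cos (K * (2 * θ - b)) / sin (K * (2 * θ - b))) -
    K ^ 3 * sin b ^ 2 * Rf (K * b) (K * (2 * θ - b))

/-- `S0 + (16/25) cot^2 θ D0` -/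
def S1 (θ b K : ℝ) : ℝ := S0 θ b K + 16 / 25 * (cos θ / sin θ) ^ 2 * D0 θ b K

/-- `A0 + (16/25) cot^2 θ D0` -/
def A1 (θ b K : ℝ) : ℝ := A0 θ b K + 16 / 25 * (cos θ / sin θ) ^ 2 * D0 θ b K

/-- the hypotheses of the second form (region `A3`) -/
structure Sp (θ b K : ℝ) : Prop where
  a : 0 ≤ A0 θ b K
  d : 0 ≤ D0 θ b K
  w0 : 0 ≤ cw θ b K
  w1 : cw θ b K < cos θ * Gf K (K * (2 * θ - b))
  m0 : 16 / 25 * cw θ b K ^ 2 ≤
    A1 θ b K * (2 * Gf K (K * (2 * θ - b)) - 2 * cw θ b K / cos θ)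
  m1 : 16 / 25 * cw θ b K ^ 2 ≤
    A1 θ b K * (16 / 25 * Lf K (K * b) (K * (2 * θ - b)) +
      18 / 25 * Gf K (K * (2 * θ - b)) - 2 * cw θ b K / cos θ)

end

end Pool.Agent.H12.PR
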